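import Pool.Agent.R763.StrFF

set_option autoImplicit false
open MeasureTheory Set

namespace Pool.Agent.Results.MP_071e18_gt.OverlapRatio

/-- The plane. -/
abbrev Plane := EuclideanSpace ℝ (Fin 2)

/-- `R(K, K') = length (∂K ∩ K') / length (∂K' ∩ K)`. -/
noncomputable def ratio (K K' : Set Plane) : ℝ :=
  (μH[1] (frontier K ∩ K')).toReal / (μH[1] (frontier K' ∩ K)).toReal

/-- `K` and `K'` overlap: their interiors intersect and `K ≠ K'`. -/
def Overlap (K K' : Set Plane) : Prop := (interior K ∩ interior K').Nonempty ∧ K ≠ K'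

/-- congruence by an isometry of the plane -/
def Congruent (K K' : Set Plane) : Prop := ∃ g : Plane ≃ᵢ Plane, K' = g '' K

/-- the solid triangle -/
def Tri (A B C : Plane) : Set Plane := convexHull ℝ {A, B, C}

/-- the smallest angle of the triangle `ABC` -/
noncomputable def smallestAngle (A B C : Plane) : ℝ :=
  min (min (EuclideanGeometry.angle B A C) (EuclideanGeometry.angle A B C))
    (EuclideanGeometry.angle A C B)

/-- all values `R(K, K')` for overlapping triangles `K, K'` congruent to `T` -/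
def ratios (T : Set Plane) : Set ℝ :=
  {r | ∃ K K' : Set Plane, Congruent T K ∧ Congruent T K' ∧ Overlap K K' ∧ r = ratio K K'}

open Pool.Agent.R763.Str

/-- intersection of three half planes -/
def HP (a1 b1 c1 a2 b2 c2 a3 b3 c3 : ℝ) : Set Plane :=
  {x | a1 * x 0 + b1 * x 1 ≤ c1 ∧ a2 * x 0 + b2 * x 1 ≤ c2 ∧ a3 * x 0 + b3 * x 1 ≤ c3}

theorem cont_lin (a b : ℝ) : Continuous (fun x : Plane => a * x 0 + b * x 1) := by fun_prop

theorem HP_closed (a1 b1 c1 a2 b2 c2 a3 b3 c3 : ℝ) : IsClosed (HP a1 b1 c1 a2 b2 c2 a3 b3 c3) := by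
  apply IsClosed.inter (isClosed_le (cont_lin _ _) continuous_const)
  exact IsClosed.inter (isClosed_le (cont_lin _ _) continuous_const)
    (isClosed_le (cont_lin _ _) continuous_const)

theorem HP_interior (a1 b1 c1 a2 b2 c2 a3 b3 c3 : ℝ) :
    {x : Plane | a1 * x 0 + b1 * x 1 < c1 ∧ a2 * x 0 + b2 * x 1 < c2 ∧ a3 * x 0 + b3 * x 1 < c3}
      ⊆ interior (HP a1 b1 c1 a2 b2 c2 a3 b3 c3) := by
  apply interior_maximal
  · rintro x ⟨h1, h2, h3⟩; exact ⟨h1.le, h2.le, h3.le⟩
  · apply IsOpen.inter (isOpen_lt (cont_lin _ _) continuous_const)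
    exact IsOpen.inter (isOpen_lt (cont_lin _ _) continuous_const)
      (isOpen_lt (cont_lin _ _) continuous_const)

theorem not_interior {S : Set Plane} {a b c : ℝ} (hab : 0 < a ^ 2 + b ^ 2)
    (hS : ∀ x ∈ S, a * x 0 + b * x 1 ≤ c) {x : Plane} (hx : a * x 0 + b * x 1 = c) :
    x ∉ interior S := by
  intro hint
  have hcont : ContinuousAt (fun s : ℝ => x + s • (!₂[a, b] : Plane)) 0 := by fun_prop
  have hnhds : ∀ᶠ s in nhds (0:ℝ), x + s • (!₂[a, b] : Plane) ∈ S := by
    have := hcont.preimage_mem_nhds (IsOpen.mem_nhds isOpen_interior (by simpa using hint))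
    filter_upwards [this] with s hs
    exact interior_subset hs
  obtain ⟨ε, hε, hball⟩ := Metric.eventually_nhds_iff.1 hnhds
  have h1 := hball (y := ε / 2) (by rw [Real.dist_eq, sub_zero, abs_of_pos (by linarith)]; linarith)
  have h2 := hS _ h1
  simp at h2
  nlinarith


/-- barycentric coordinates -/
theorem mem_tri {A B C x : Plane} {α β γ : ℝ} (hα : 0 ≤ α) (hβ : 0 ≤ β) (hγ : 0 ≤ γ)
    (h1 : α + β + γ = 1) (hx : x = α • A + β • B + γ • C) : x ∈ Tri A B C := by
  have hc : Convex ℝ (Tri A B C) := convex_convexHull ℝ _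
  have hA : A ∈ Tri A B C := subset_convexHull ℝ _ (by simp)
  have hB : B ∈ Tri A B C := subset_convexHull ℝ _ (by simp)
  have hC : C ∈ Tri A B C := subset_convexHull ℝ _ (by simp)
  have := hc.sum_mem (t := (Finset.univ : Finset (Fin 3))) (w := ![α, β, γ]) (z := ![A, B, C])
    (by intro i _; fin_cases i <;> simpa) (by simp [Fin.sum_univ_three, h1])
    (by intro i _; fin_cases i <;> simpa)
  rw [hx]
  simpa [Fin.sum_univ_three] using this

/-- the first triangle -/
theorem tri_eq : Tri !₂[0, 0] !₂[6, 0] !₂[3, 4] = HP 0 (-1) 0 (-4) 3 0 4 3 24 := by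
  apply Subset.antisymm
  · rw [Tri]
    apply convexHull_min
    · rintro x (rfl | rfl | rfl) <;> refine ⟨?_, ?_, ?_⟩ <;> norm_num
    · rintro x ⟨h1, h2, h3⟩ y ⟨k1, k2, k3⟩ s t hs ht hst
      refine ⟨?_, ?_, ?_⟩
      · simp; nlinarith
      · simp; nlinarith
      · simp; nlinarith
  · rintro x ⟨h1, h2, h3⟩
    refine mem_tri (α := (24 - 4 * x 0 - 3 * x 1) / 24) (β := (4 * x 0 - 3 * x 1) / 24)
      (γ := x 1 / 4) (by linarith) (by linarith) (by linarith) (by ring) ?_
    ext i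
    fin_cases i
    · simp; ring
    · simp

/-- the second triangle -/
theorem tri_eq' : Tri !₂[17/5, 47/10] !₂[-1/5, -1/10] !₂[24/5, -1/10]
    = HP 0 (-1) (1/10) (-4) 3 (1/2) 24 7 (229/2) := by
  apply Subset.antisymm
  · rw [Tri]
    apply convexHull_min
    · rintro x (rfl | rfl | rfl) <;> refine ⟨?_, ?_, ?_⟩ <;> norm_num
    · rintro x ⟨h1, h2, h3⟩ y ⟨k1, k2, k3⟩ s t hs ht hst
      refine ⟨?_, ?_, ?_⟩
      · simp; nlinarith
      · simp; nlinarith
      · simp; nlinarith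
  · rintro x ⟨h1, h2, h3⟩
    refine mem_tri (α := (x 1 + 1/10) / (24/5)) (β := (229/2 - 24 * x 0 - 7 * x 1) / 120)
      (γ := (4 * x 0 - 3 * x 1 + 1/2) / 20) (by linarith) (by linarith) (by linarith)
      (by ring) ?_
    ext i
    fin_cases i
    · simp; ring
    · simp; ring

/-- the direct isometry taking the first triangle onto the second -/
noncomputable def gfun (x : Plane) : Plane :=
  !₂[-3/5 * x 0 + 4/5 * x 1 + 17/5, -4/5 * x 0 - 3/5 * x 1 + 47/10]

theorem gfun_isometry : Isometry gfun := by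
  apply Isometry.of_dist_eq
  intro x y
  rw [EuclideanSpace.dist_eq, EuclideanSpace.dist_eq]
  congr 1
  simp only [gfun, Fin.sum_univ_two, Real.dist_eq, sq_abs]
  simp
  ring

theorem gfun_surj : Function.Surjective gfun := by
  intro y
  refine ⟨!₂[-3/5 * (y 0 - 17/5) - 4/5 * (y 1 - 47/10), 4/5 * (y 0 - 17/5) - 3/5 * (y 1 - 47/10)], ?_⟩
  ext i
  fin_cases i
  · simp [gfun]; ring
  · simp [gfun]; ring

noncomputable def giso : Plane ≃ᵢ Plane :=
  IsometryEquiv.mk' gfun (Function.surjInv gfun_surj) (Function.surjInv_eq gfun_surj) gfun_isometry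

theorem giso_apply (x : Plane) : giso x = gfun x := rfl

theorem g_image : giso '' (HP 0 (-1) 0 (-4) 3 0 4 3 24)
    = HP 0 (-1) (1/10) (-4) 3 (1/2) 24 7 (229/2) := by
  ext y
  constructor
  · rintro ⟨x, ⟨h1, h2, h3⟩, rfl⟩
    rw [giso_apply]
    refine ⟨?_, ?_, ?_⟩
    · simp [gfun]; linarith
    · simp [gfun]; linarith
    · simp [gfun]; linarith
  · rintro ⟨h1, h2, h3⟩
    refine ⟨!₂[-3/5 * (y 0 - 17/5) - 4/5 * (y 1 - 47/10),
      4/5 * (y 0 - 17/5) - 3/5 * (y 1 - 47/10)], ⟨?_, ?_, ?_⟩, ?_⟩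
    · simp; linarith
    · simp; linarith
    · simp; linarith
    · rw [giso_apply]
      ext i
      fin_cases i
      · simp [gfun]; ring
      · simp [gfun]; ring

/-- a segment has measure its length -/
theorem seg_measure (P Q : Plane) : μH[1] (segment ℝ P Q) = ENNReal.ofReal (dist P Q) := by
  rw [MeasureTheory.hausdorffMeasure_segment, edist_dist]


/-- the two triangles as intersections of half planes -/
abbrev KK : Set Plane := HP 0 (-1) 0 (-4) 3 0 4 3 24
abbrev KK' : Set Plane := HP 0 (-1) (1/10) (-4) 3 (1/2) 24 7 (229/2)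

theorem compact_KK : IsCompact KK := by
  have h : KK = Tri !₂[0, 0] !₂[6, 0] !₂[3, 4] := tri_eq.symm
  rw [h, Tri]
  exact (Set.toFinite ({!₂[0, 0], !₂[6, 0], !₂[3, 4]} : Set Plane)).isCompact_convexHull ℝ

theorem convex_KK : Convex ℝ KK := by
  have h : KK = Tri !₂[0, 0] !₂[6, 0] !₂[3, 4] := tri_eq.symm
  rw [h, Tri]
  exact convex_convexHull ℝ _

theorem interior_KK : (!₂[2, 1] : Plane) ∈ interior KK := by
  apply HP_interior
  refine ⟨?_, ?_, ?_⟩ <;> simp <;> norm_num

theorem interior_KK' : (!₂[2, 1] : Plane) ∈ interior KK' := by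
  apply HP_interior
  refine ⟨?_, ?_, ?_⟩ <;> simp <;> norm_num

theorem dist_pt (a b c d r : ℝ) (hr : 0 ≤ r) (h : (a - c) ^ 2 + (b - d) ^ 2 = r ^ 2) :
    dist (!₂[a, b] : Plane) !₂[c, d] = r := by
  rw [EuclideanSpace.dist_eq]
  simp only [Fin.sum_univ_two, Real.dist_eq, sq_abs]
  have : ((!₂[a, b] : Plane) 0 - (!₂[c, d] : Plane) 0) ^ 2
      + ((!₂[a, b] : Plane) 1 - (!₂[c, d] : Plane) 1) ^ 2 = r ^ 2 := by
    simpa using h
  rw [this, Real.sqrt_sq hr]

/-- the numerator -/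
theorem numerator : (229 / 48 + 5 : ℝ) ≤ (μH[1] (frontier KK ∩ KK')).toReal := by
  have hcl : IsClosed KK := HP_closed _ _ _ _ _ _ _ _ _
  have hfr : frontier KK = KK \ interior KK := hcl.frontier_eq
  have hS1 : segment ℝ (!₂[0, 0] : Plane) !₂[229/48, 0] ⊆ frontier KK ∩ KK' := by
    rw [segment_eq_image ℝ]
    rintro x ⟨t, ⟨ht0, ht1⟩, rfl⟩
    refine ⟨?_, ?_, ?_, ?_⟩
    · rw [hfr]
      refine ⟨⟨?_, ?_, ?_⟩, ?_⟩
      · simp
      · simp; linarith
      · simp; linarith
      · apply not_interior (a := 0) (b := -1) (c := 0) (by norm_num) (fun x hx => hx.1)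
        simp
    · simp
    · simp; linarith
    · simp; linarith
  have hS2 : segment ℝ (!₂[0, 0] : Plane) !₂[3, 4] ⊆ frontier KK ∩ KK' := by
    rw [segment_eq_image ℝ]
    rintro x ⟨t, ⟨ht0, ht1⟩, rfl⟩
    refine ⟨?_, ?_, ?_, ?_⟩
    · rw [hfr]
      refine ⟨⟨?_, ?_, ?_⟩, ?_⟩
      · simp; linarith
      · simp; linarith
      · simp; linarith
      · apply not_interior (a := -4) (b := 3) (c := 0) (by norm_num) (fun x hx => hx.2.1)
        simp; ring
    · simp; linarith
    · simp; linarith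
    · simp; linarith
  have hinter : segment ℝ (!₂[0, 0] : Plane) !₂[229/48, 0] ∩ segment ℝ (!₂[0, 0] : Plane) !₂[3, 4]
      ⊆ {0} := by
    rw [segment_eq_image ℝ, segment_eq_image ℝ]
    rintro x ⟨⟨t, ⟨ht0, ht1⟩, h1⟩, ⟨s, ⟨hs0, hs1⟩, h2⟩⟩
    have e1 : x 1 = 0 := by rw [← h1]; simp
    have e2 : x 1 = s * 4 := by rw [← h2]; simp
    have e3 : s = 0 := by linarith
    rw [mem_singleton_iff, ← h2, e3]
    ext i
    fin_cases i <;> simp
  have := Measure.nullSingletonClass_hausdorff Plane zero_lt_one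
  have hz : μH[1] (segment ℝ (!₂[0, 0] : Plane) !₂[229/48, 0] ∩ segment ℝ (!₂[0, 0] : Plane) !₂[3, 4]) = 0 :=
    measure_mono_null hinter (measure_singleton _)
  have hm : MeasurableSet (segment ℝ (!₂[0, 0] : Plane) !₂[3, 4]) := by
    apply IsClosed.measurableSet
    rw [← convexHull_pair (𝕜 := ℝ)]
    exact ((Set.toFinite ({!₂[0, 0], !₂[3, 4]} : Set Plane)).isCompact_convexHull ℝ).isClosed
  have hsum := measure_union_add_inter (μ := μH[1]) (segment ℝ (!₂[0, 0] : Plane) !₂[229/48, 0]) hm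
  rw [hz, add_zero, seg_measure, seg_measure, dist_pt _ _ _ _ (229/48) (by norm_num) (by norm_num),
    dist_pt _ _ _ _ 5 (by norm_num) (by norm_num), ← ENNReal.ofReal_add (by norm_num) (by norm_num)] at hsum
  have hle : ENNReal.ofReal (229/48 + 5) ≤ μH[1] (frontier KK ∩ KK') := by
    rw [← hsum]
    exact measure_mono (union_subset hS1 hS2)
  have hfin : μH[1] (frontier KK ∩ KK') ≠ ⊤ := by
    apply ne_top_of_le_ne_top _ (measure_mono inter_subset_left)
    rw [(cauchy compact_KK convex_KK ⟨_, interior_KK⟩).1]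
    exact ENNReal.ofReal_ne_top
  exact (ENNReal.ofReal_le_iff_le_toReal hfin).1 hle

/-- the denominator -/
theorem denominator : (μH[1] (frontier KK' ∩ KK)).toReal = 1475 / 528 := by
  have hcl : IsClosed KK' := HP_closed _ _ _ _ _ _ _ _ _
  have hfr : frontier KK' = KK' \ interior KK' := hcl.frontier_eq
  have hseg : frontier KK' ∩ KK = segment ℝ (!₂[229/48, 0] : Plane) !₂[351/88, 59/22] := by
    rw [segment_eq_image ℝ, hfr]
    apply Subset.antisymm
    · rintro x ⟨⟨⟨h1, h2, h3⟩, h4⟩, h5, h6, h7⟩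
      have e : 24 * x 0 + 7 * x 1 = 229 / 2 := by
        by_contra hne
        apply h4
        apply HP_interior
        refine ⟨?_, ?_, lt_of_le_of_ne h3 hne⟩
        · linarith
        · linarith
      refine ⟨x 1 * (22 / 59), ⟨by linarith, by linarith⟩, ?_⟩
      ext i
      fin_cases i
      · simp; linarith
      · simp; ring
    · rintro x ⟨t, ⟨ht0, ht1⟩, rfl⟩
      refine ⟨⟨⟨?_, ?_, ?_⟩, ?_⟩, ?_, ?_, ?_⟩
      · simp; linarith
      · simp; linarith
      · simp; linarith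
      · apply not_interior (a := 24) (b := 7) (c := 229/2) (by norm_num) (fun x hx => hx.2.2)
        simp; ring
      · simp; linarith
      · simp; linarith
      · simp; linarith
  rw [hseg, seg_measure, dist_pt _ _ _ _ (1475/528) (by norm_num) (by norm_num),
    ENNReal.toReal_ofReal (by norm_num)]

/-- the ratio of the two triangles is at least `3.49…` -/
theorem ratio_ge : (17 / 5 : ℝ) ≤ ratio KK KK' := by
  rw [ratio, denominator, le_div_iff₀ (by norm_num)]
  have := numerator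
  linarith

theorem angle_eq (P Q : Plane) {r c : ℝ} (hr : ‖P‖ * ‖Q‖ = r) (hc : inner ℝ P Q = c) :
    InnerProductGeometry.angle P Q = Real.arccos (c / r) := by
  rw [InnerProductGeometry.angle, hr, hc]

theorem norm_pt (a b r : ℝ) (hr : 0 ≤ r) (h : a ^ 2 + b ^ 2 = r ^ 2) :
    ‖(!₂[a, b] : Plane)‖ = r := by
  rw [EuclideanSpace.norm_eq]
  simp [Fin.sum_univ_two, h, Real.sqrt_sq hr]

theorem angleA : EuclideanGeometry.angle (!₂[6, 0] : Plane) !₂[0, 0] !₂[3, 4] = Real.arccos (3/5) := by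
  have e1 : (!₂[6, 0] : Plane) -ᵥ !₂[0, 0] = !₂[6, 0] := by
    ext i; fin_cases i <;> simp
  have e2 : (!₂[3, 4] : Plane) -ᵥ !₂[0, 0] = !₂[3, 4] := by
    ext i; fin_cases i <;> simp
  rw [EuclideanGeometry.angle, e1, e2, angle_eq (r := 30) (c := 18)]
  · norm_num
  · rw [norm_pt 6 0 6 (by norm_num) (by norm_num), norm_pt 3 4 5 (by norm_num) (by norm_num)]
    norm_num
  · simp [PiLp.inner_apply, Fin.sum_univ_two]; norm_num

theorem angleB : EuclideanGeometry.angle (!₂[0, 0] : Plane) !₂[6, 0] !₂[3, 4] = Real.arccos (3/5) := by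
  have e1 : (!₂[0, 0] : Plane) -ᵥ !₂[6, 0] = !₂[-6, 0] := by
    ext i; fin_cases i <;> simp
  have e2 : (!₂[3, 4] : Plane) -ᵥ !₂[6, 0] = !₂[-3, 4] := by
    ext i; fin_cases i <;> simp; norm_num
  rw [EuclideanGeometry.angle, e1, e2, angle_eq (r := 30) (c := 18)]
  · norm_num
  · rw [norm_pt (-6) 0 6 (by norm_num) (by norm_num), norm_pt (-3) 4 5 (by norm_num) (by norm_num)]
    norm_num
  · simp [PiLp.inner_apply, Fin.sum_univ_two]; norm_num

theorem angleC : EuclideanGeometry.angle (!₂[0, 0] : Plane) !₂[3, 4] !₂[6, 0] = Real.arccos (7/25) := by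
  have e1 : (!₂[0, 0] : Plane) -ᵥ !₂[3, 4] = !₂[-3, -4] := by
    ext i; fin_cases i <;> simp
  have e2 : (!₂[6, 0] : Plane) -ᵥ !₂[3, 4] = !₂[3, -4] := by
    ext i; fin_cases i <;> simp; norm_num
  rw [EuclideanGeometry.angle, e1, e2, angle_eq (r := 25) (c := 7)]
  · rw [norm_pt (-3) (-4) 5 (by norm_num) (by norm_num), norm_pt 3 (-4) 5 (by norm_num) (by norm_num)]
    norm_num
  · simp [PiLp.inner_apply, Fin.sum_univ_two]; norm_num

theorem smallest : smallestAngle !₂[0, 0] !₂[6, 0] !₂[3, 4] = Real.arccos (3/5) := by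
  rw [smallestAngle, angleA, angleB, angleC, min_self]
  apply min_eq_left
  exact Real.arccos_le_arccos (by norm_num)

/-- `csc (θ/2) = √5` -/
theorem csc_eq : 1 / Real.sin (smallestAngle !₂[0, 0] !₂[6, 0] !₂[3, 4] / 2) = Real.sqrt 5 := by
  rw [smallest, Real.sin_half_eq_sqrt (Real.arccos_nonneg _) (by linarith [Real.arccos_le_pi (3/5 : ℝ), Real.pi_pos]),
    Real.cos_arccos (by norm_num) (by norm_num)]
  have : Real.sqrt ((1 - 3/5) / 2) = Real.sqrt 5 / 5 := by
    rw [Real.sqrt_eq_iff_mul_self_eq (by norm_num) (by positivity)]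
    have := Real.mul_self_sqrt (show (0:ℝ) ≤ 5 by norm_num)
    nlinarith
  rw [this]
  have h5 : Real.sqrt 5 ≠ 0 := by positivity
  field_simp
  exact (Real.sq_sqrt (by norm_num)).symm

theorem csc_lt : 1 / Real.sin (smallestAngle !₂[0, 0] !₂[6, 0] !₂[3, 4] / 2) + 1 < ratio KK KK' := by
  rw [csc_eq]
  have : Real.sqrt 5 < 12 / 5 := by
    rw [Real.sqrt_lt' (by norm_num)]; norm_num
  linarith [ratio_ge]

theorem affInd : AffineIndependent ℝ ![(!₂[0, 0] : Plane), !₂[6, 0], !₂[3, 4]] := by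
  rw [affineIndependent_iff_not_collinear_set,
    collinear_iff_of_mem (p₀ := (!₂[0, 0] : Plane)) (by simp)]
  rintro ⟨v, hv⟩
  obtain ⟨r, hr⟩ := hv !₂[6, 0] (by simp)
  obtain ⟨s, hs⟩ := hv !₂[3, 4] (by simp)
  have h1 : 6 = r * v 0 := by
    have := congrArg (fun z : Plane => z 0) hr
    simpa using this
  have h2 : 0 = r * v 1 := by
    have := congrArg (fun z : Plane => z 1) hr
    simpa using this
  have h4 : 4 = s * v 1 := by
    have := congrArg (fun z : Plane => z 1) hs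
    simpa using this
  have hr0 : r ≠ 0 := by rintro rfl; linarith
  have hv1 : v 1 = 0 := by
    rcases mul_eq_zero.1 h2.symm with h | h
    · exact absurd h hr0
    · exact h
  rw [hv1] at h4
  linarith

/-- **Main result.** The conjectured value `M(T) = csc (θ/2)` is false. -/
theorem result :
    (∃ A B C : Plane, AffineIndependent ℝ ![A, B, C] ∧
      ∃ K K' : Set Plane, Congruent (Tri A B C) K ∧ Congruent (Tri A B C) K' ∧ Overlap K K' ∧
        1 / Real.sin (smallestAngle A B C / 2) + 1 < ratio K K') ∧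
    ¬ ∀ A B C : Plane, AffineIndependent ℝ ![A, B, C] →
      IsLUB (ratios (Tri A B C)) (1 / Real.sin (smallestAngle A B C / 2)) := by
  have hex : ∃ K K' : Set Plane, Congruent (Tri !₂[0, 0] !₂[6, 0] !₂[3, 4]) K ∧
      Congruent (Tri !₂[0, 0] !₂[6, 0] !₂[3, 4]) K' ∧ Overlap K K' ∧
        1 / Real.sin (smallestAngle !₂[0, 0] !₂[6, 0] !₂[3, 4] / 2) + 1 < ratio K K' := by
    refine ⟨KK, KK', ⟨IsometryEquiv.refl _, ?_⟩, ⟨giso, ?_⟩, ⟨⟨_, interior_KK, interior_KK'⟩, ?_⟩, csc_lt⟩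
    · rw [tri_eq]; exact (Set.image_id _).symm
    · rw [tri_eq, g_image]
    · intro h
      have h1 : (!₂[-1/5, -1/10] : Plane) ∈ KK' := by
        refine ⟨?_, ?_, ?_⟩ <;> norm_num
      rw [← h] at h1
      have := h1.1
      norm_num at this
  refine ⟨⟨_, _, _, affInd, hex⟩, ?_⟩
  intro hall
  obtain ⟨K, K', hK, hK', hov, hlt⟩ := hex
  have := (hall _ _ _ affInd).1 ⟨K, K', hK, hK', hov, rfl⟩
  linarith

end Pool.Agent.Results.MP_071e18_gt.OverlapRatio
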