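import Mathlib

/-!
# MP_071e18_gt, Q1: the conjectured value `M(T) = csc(θ/2)` is false

For the right isosceles triangle `T` with vertices `(0,0)`, `(2,0)`, `(1,1)` (smallest angle
`θ = π/4`, `csc(θ/2) = 2.61...`) we exhibit an overlapping pair of congruent copies whose boundary
overlap ratio is larger than `4`.  Hence `M(T) > csc(θ/2)`.

The copy `K'` is the mirror image of `T` in the bisector of the angle at `(0,0)`, translated by the
small vector `(-1/50, -1/100)`.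
-/

namespace Pool.Agent.Results.MP_071e18_gt.RightIsosceles

open MeasureTheory Set
open scoped ENNReal EuclideanGeometry Topology

/-- The Euclidean plane. -/
abbrev E2 := EuclideanSpace ℝ (Fin 2)

/-- `K` and `K'` overlap: their interiors intersect and `K ≠ K'`. -/
def Overlap (K K' : Set E2) : Prop :=
  (interior K ∩ interior K').Nonempty ∧ K ≠ K'

/-- The ratio `length(∂K ∩ K') / length(∂K' ∩ K)`, length being one-dimensional Hausdorff
measure. -/
noncomputable def ratio (K K' : Set E2) : ℝ≥0∞ :=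
  μH[1] (frontier K ∩ K') / μH[1] (frontier K' ∩ K)

/-- `M(T)`: the supremum of the ratio over all overlapping pairs of congruent copies of `T`. -/
noncomputable def M (T : Set E2) : ℝ≥0∞ :=
  ⨆ (g : E2 ≃ᵢ E2) (g' : E2 ≃ᵢ E2) (_ : Overlap (g '' T) (g' '' T)), ratio (g '' T) (g' '' T)

/-- The smallest angle of the triangle with vertices `a, b, c`. -/
noncomputable def smallestAngle (a b c : E2) : ℝ :=
  min (∠ b a c) (min (∠ a b c) (∠ a c b))

/-- the triangle `{0 ≤ y ≤ x, x + y ≤ 2}` -/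
def T0 : Set E2 := {p | 0 ≤ p 1 ∧ p 1 ≤ p 0 ∧ p 0 + p 1 ≤ 2}

/-- the moved triangle -/
def K0 : Set E2 := {p | 0 ≤ p 1 + 1 / 100 ∧ p 1 + 1 / 100 ≤ p 0 + 1 / 50 ∧
  p 0 + 1 / 50 ≤ Real.sqrt 2}

theorem hull_eq : convexHull ℝ ({!₂[(0:ℝ), 0], !₂[(2:ℝ), 0], !₂[(1:ℝ), 1]} : Set E2) = T0 := by
  apply Subset.antisymm
  · apply convexHull_min
    · intro p hp
      simp only [mem_insert_iff, mem_singleton_iff] at hp
      rcases hp with rfl | rfl | rfl <;> simp [T0] <;> norm_num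
    · intro x hx y hy s t hs ht hst
      simp only [T0, mem_ofPred_eq, PiLp.add_apply, PiLp.smul_apply, smul_eq_mul] at hx hy ⊢
      obtain ⟨hx1, hx2, hx3⟩ := hx
      obtain ⟨hy1, hy2, hy3⟩ := hy
      refine ⟨by positivity, by nlinarith, ?_⟩
      have h1 := mul_le_mul_of_nonneg_left hx3 hs
      have h2 := mul_le_mul_of_nonneg_left hy3 ht
      nlinarith
  · intro p hp
    obtain ⟨h1, h2, h3⟩ := hp
    have hc := (convex_convexHull ℝ
      ({!₂[(0:ℝ), 0], !₂[(2:ℝ), 0], !₂[(1:ℝ), 1]} : Set E2)).sum_mem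
      (t := (Finset.univ : Finset (Fin 3)))
      (w := ![1 - (p 0 + p 1) / 2, (p 0 - p 1) / 2, p 1])
      (z := ![!₂[(0:ℝ), 0], !₂[(2:ℝ), 0], !₂[(1:ℝ), 1]])
      (by
        intro i _
        fin_cases i
        · show 0 ≤ 1 - (p 0 + p 1) / 2
          linarith
        · show 0 ≤ (p 0 - p 1) / 2
          linarith
        · show 0 ≤ p 1
          exact h1)
      (by
        rw [Fin.sum_univ_three]
        show (1 - (p 0 + p 1) / 2) + (p 0 - p 1) / 2 + p 1 = 1
        ring)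
      (by
        intro i _
        apply subset_convexHull
        fin_cases i
        · left; rfl
        · right; left; rfl
        · right; right; rfl)
    convert hc using 1
    rw [Fin.sum_univ_three]
    ext i
    fin_cases i
    · simp
    · simp

/-- the congruence: reflection in the bisector of the angle at the origin followed by the
translation by `(-1/50, -1/100)` -/
noncomputable def G : E2 ≃ᵢ E2 where
  toFun p := !₂[(p 0 + p 1) / Real.sqrt 2 - 1 / 50, (p 0 - p 1) / Real.sqrt 2 - 1 / 100]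
  invFun q := !₂[(q 0 + 1 / 50 + (q 1 + 1 / 100)) / Real.sqrt 2,
    (q 0 + 1 / 50 - (q 1 + 1 / 100)) / Real.sqrt 2]
  left_inv p := by
    have h' : Real.sqrt 2 ^ 2 = 2 := Real.sq_sqrt (by norm_num)
    have h0 : Real.sqrt 2 ≠ 0 := by positivity
    ext i
    fin_cases i
    · simp only [Fin.zero_eta, Matrix.cons_val_zero, Matrix.cons_val_one]
      field_simp
      rw [h']
      ring
    · simp only [Fin.mk_one, Matrix.cons_val_zero, Matrix.cons_val_one]
      field_simp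
      rw [h']
      ring
  right_inv q := by
    have h' : Real.sqrt 2 ^ 2 = 2 := Real.sq_sqrt (by norm_num)
    have h0 : Real.sqrt 2 ≠ 0 := by positivity
    ext i
    fin_cases i
    · simp only [Fin.zero_eta, Matrix.cons_val_zero, Matrix.cons_val_one]
      field_simp
      rw [h']
      ring
    · simp only [Fin.mk_one, Matrix.cons_val_zero, Matrix.cons_val_one]
      field_simp
      rw [h']
      ring
  isometry_toFun := by
    apply Isometry.of_dist_eq
    intro x y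
    have h : Real.sqrt 2 * Real.sqrt 2 = 2 := Real.mul_self_sqrt (by norm_num)
    have h0 : Real.sqrt 2 ≠ 0 := by positivity
    rw [EuclideanSpace.dist_eq, EuclideanSpace.dist_eq, Fin.sum_univ_two, Fin.sum_univ_two]
    congr 1
    simp only [Matrix.cons_val_zero, Matrix.cons_val_one, Real.dist_eq, sq_abs]
    have e1 : (x 0 + x 1) / Real.sqrt 2 - 1 / 50 - ((y 0 + y 1) / Real.sqrt 2 - 1 / 50)
        = ((x 0 - y 0) + (x 1 - y 1)) / Real.sqrt 2 := by ring
    have e2 : (x 0 - x 1) / Real.sqrt 2 - 1 / 100 - ((y 0 - y 1) / Real.sqrt 2 - 1 / 100)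
        = ((x 0 - y 0) - (x 1 - y 1)) / Real.sqrt 2 := by ring
    rw [e1, e2, div_pow, div_pow, Real.sq_sqrt (by norm_num)]
    ring

theorem image_eq : G '' T0 = K0 := by
  have h : Real.sqrt 2 * Real.sqrt 2 = 2 := Real.mul_self_sqrt (by norm_num)
  have hpos : 0 < Real.sqrt 2 := by positivity
  ext q
  constructor
  · rintro ⟨p, ⟨h1, h2, h3⟩, rfl⟩
    have e0 : (G p) 0 = (p 0 + p 1) / Real.sqrt 2 - 1 / 50 := rfl
    have e1 : (G p) 1 = (p 0 - p 1) / Real.sqrt 2 - 1 / 100 := rfl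
    refine ⟨?_, ?_, ?_⟩
    · rw [e1]
      have : 0 ≤ (p 0 - p 1) / Real.sqrt 2 := div_nonneg (by linarith) hpos.le
      linarith
    · rw [e0, e1]
      have : (p 0 - p 1) / Real.sqrt 2 ≤ (p 0 + p 1) / Real.sqrt 2 :=
        div_le_div_of_nonneg_right (by linarith) hpos.le
      linarith
    · rw [e0]
      have : (p 0 + p 1) / Real.sqrt 2 ≤ Real.sqrt 2 := by
        rw [div_le_iff₀ hpos, h]; exact h3
      linarith
  · rintro ⟨h1, h2, h3⟩
    refine ⟨G.symm q, ⟨?_, ?_, ?_⟩, G.apply_symm_apply q⟩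
    · show 0 ≤ (q 0 + 1 / 50 - (q 1 + 1 / 100)) / Real.sqrt 2
      exact div_nonneg (by linarith) hpos.le
    · show (q 0 + 1 / 50 - (q 1 + 1 / 100)) / Real.sqrt 2
        ≤ (q 0 + 1 / 50 + (q 1 + 1 / 100)) / Real.sqrt 2
      exact div_le_div_of_nonneg_right (by linarith) hpos.le
    · show (q 0 + 1 / 50 + (q 1 + 1 / 100)) / Real.sqrt 2
        + (q 0 + 1 / 50 - (q 1 + 1 / 100)) / Real.sqrt 2 ≤ 2
      rw [← add_div, div_le_iff₀ hpos]
      nlinarith

theorem isClosed_T0 : IsClosed T0 := by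
  have e : T0 = {p : E2 | 0 ≤ p 1} ∩ ({p : E2 | p 1 ≤ p 0} ∩ {p : E2 | p 0 + p 1 ≤ 2}) := by
    ext p; simp [T0]
  rw [e]
  refine IsClosed.inter (isClosed_le (by fun_prop) (by fun_prop))
    (IsClosed.inter (isClosed_le (by fun_prop) (by fun_prop))
      (isClosed_le (by fun_prop) (by fun_prop)))

theorem isClosed_K0 : IsClosed K0 := by
  have e : K0 = {p : E2 | 0 ≤ p 1 + 1 / 100} ∩ ({p : E2 | p 1 + 1 / 100 ≤ p 0 + 1 / 50} ∩
      {p : E2 | p 0 + 1 / 50 ≤ Real.sqrt 2}) := by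
    ext p; simp [K0]
  rw [e]
  refine IsClosed.inter (isClosed_le (by fun_prop) (by fun_prop))
    (IsClosed.inter (isClosed_le (by fun_prop) (by fun_prop))
      (isClosed_le (by fun_prop) (by fun_prop)))

/-- a point which can be left along a ray inside the complement is not interior -/
theorem not_interior {S : Set E2} (p v : E2) (h : ∀ t : ℝ, 0 < t → p + t • v ∉ S) :
    p ∉ interior S := by
  intro hp
  rw [mem_interior_iff_mem_nhds] at hp
  have hc : Filter.Tendsto (fun t : ℝ => p + t • v) (𝓝[>] 0) (𝓝 p) := by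
    have : Filter.Tendsto (fun t : ℝ => p + t • v) (𝓝 0) (𝓝 (p + (0:ℝ) • v)) := by
      apply Continuous.tendsto
      fun_prop
    rw [zero_smul, add_zero] at this
    exact this.mono_left nhdsWithin_le_nhds
  have h1 := hc.eventually hp
  have h2 : ∀ᶠ t : ℝ in 𝓝[>] (0:ℝ), 0 < t := eventually_mem_nhdsWithin
  obtain ⟨t, ht1, ht2⟩ := (h1.and h2).exists
  exact h t ht2 ht1

theorem frontier_T0_sub_bottom (p : E2) (h0 : p ∈ T0) (h1 : p 1 = 0) : p ∈ frontier T0 := by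
  rw [isClosed_T0.frontier_eq]
  refine ⟨h0, not_interior p !₂[(0:ℝ), -1] ?_⟩
  intro t ht hT
  have := hT.1
  simp [h1] at this
  linarith

theorem frontier_T0_sub_left (p : E2) (h0 : p ∈ T0) (h1 : p 1 = p 0) : p ∈ frontier T0 := by
  rw [isClosed_T0.frontier_eq]
  refine ⟨h0, not_interior p !₂[(-1:ℝ), 0] ?_⟩
  intro t ht hT
  have := hT.2.1
  simp [h1] at this
  linarith

theorem sqrt_lo : (1.41 : ℝ) < Real.sqrt 2 := by
  rw [Real.lt_sqrt (by norm_num)]; norm_num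

theorem sqrt_hi : Real.sqrt 2 < (1.42 : ℝ) := by
  rw [Real.sqrt_lt' (by norm_num)]; norm_num

theorem frontier_K0_inter : frontier K0 ∩ T0 ⊆
    segment ℝ (!₂[Real.sqrt 2 - 1 / 50, 0] : E2) !₂[Real.sqrt 2 - 1 / 50, 2 - Real.sqrt 2 + 1 / 50] := by
  rintro p ⟨hp, h1, h2, h3⟩
  have hlo := sqrt_lo
  have hhi := sqrt_hi
  rw [isClosed_K0.frontier_eq] at hp
  obtain ⟨⟨k1, k2, k3⟩, hni⟩ := hp
  have hx : p 0 + 1 / 50 = Real.sqrt 2 := by
    by_contra hne
    apply hni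
    have hopen : IsOpen ({p : E2 | 0 < p 1 + 1 / 100} ∩ ({p : E2 | p 1 + 1 / 100 < p 0 + 1 / 50} ∩
        {p : E2 | p 0 + 1 / 50 < Real.sqrt 2})) :=
      IsOpen.inter (isOpen_lt (by fun_prop) (by fun_prop))
        (IsOpen.inter (isOpen_lt (by fun_prop) (by fun_prop))
          (isOpen_lt (by fun_prop) (by fun_prop)))
    refine interior_maximal ?_ hopen ⟨?_, ?_, ?_⟩
    · rintro q ⟨q1, q2, q3⟩
      exact ⟨le_of_lt q1, le_of_lt q2, le_of_lt q3⟩
    · show 0 < p 1 + 1 / 100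
      linarith
    · show p 1 + 1 / 100 < p 0 + 1 / 50
      linarith
    · exact lt_of_le_of_ne k3 hne
  have hL : 0 < 2 - Real.sqrt 2 + 1 / 50 := by linarith
  rw [segment_eq_image]
  refine ⟨p 1 / (2 - Real.sqrt 2 + 1 / 50), ⟨div_nonneg h1 hL.le, ?_⟩, ?_⟩
  · rw [div_le_one hL]; linarith
  · ext i
    fin_cases i
    · simp
      linarith
    · have hne : (2 - Real.sqrt 2) * 50 + 1 ≠ 0 := by linarith
      simp
      field_simp

theorem denom_le : μH[1] (frontier K0 ∩ T0) ≤ ENNReal.ofReal 0.62 := by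
  refine (measure_mono frontier_K0_inter).trans ?_
  rw [hausdorffMeasure_segment, edist_dist]
  apply ENNReal.ofReal_le_ofReal
  rw [EuclideanSpace.dist_eq, Fin.sum_univ_two]
  simp only [Matrix.cons_val_zero, Matrix.cons_val_one, Real.dist_eq, sq_abs, sub_self]
  have hlo := sqrt_lo
  rw [Real.sqrt_le_left (by norm_num)]
  have hhi := sqrt_hi
  nlinarith

theorem num_ge : ENNReal.ofReal 2.6 ≤ μH[1] (frontier T0 ∩ K0) := by
  have hlo := sqrt_lo
  set S1 := segment ℝ (!₂[(0.1:ℝ), 0] : E2) !₂[1.3, 0] with hS1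
  set S2 := segment ℝ (!₂[(0:ℝ), 0] : E2) !₂[1, 1] with hS2
  have m1 : ∀ p ∈ S1, p 1 = 0 ∧ 0.1 ≤ p 0 ∧ p 0 ≤ 1.3 := by
    intro p hp
    rw [hS1, segment_eq_image] at hp
    obtain ⟨t, ⟨ht0, ht1⟩, rfl⟩ := hp
    simp
    constructor <;> nlinarith
  have m2 : ∀ p ∈ S2, p 1 = p 0 ∧ 0 ≤ p 0 ∧ p 0 ≤ 1 := by
    intro p hp
    rw [hS2, segment_eq_image] at hp
    obtain ⟨t, ⟨ht0, ht1⟩, rfl⟩ := hp
    simp
    exact ⟨ht0, ht1⟩
  have hsub : S1 ∪ S2 ⊆ frontier T0 ∩ K0 := by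
    rintro p (hp | hp)
    · obtain ⟨a1, a2, a3⟩ := m1 p hp
      refine ⟨frontier_T0_sub_bottom p ⟨by linarith, by linarith, by linarith⟩ a1, ?_⟩
      exact ⟨by rw [a1]; norm_num, by rw [a1]; linarith, by linarith⟩
    · obtain ⟨a1, a2, a3⟩ := m2 p hp
      refine ⟨frontier_T0_sub_left p ⟨by linarith, by linarith, by linarith⟩ a1, ?_⟩
      exact ⟨by linarith, by linarith, by linarith⟩
  have hdisj : Disjoint S1 S2 := by
    rw [Set.disjoint_left]
    intro p hp1 hp2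
    obtain ⟨a1, a2, a3⟩ := m1 p hp1
    obtain ⟨b1, b2, b3⟩ := m2 p hp2
    linarith
  have hmeas : MeasurableSet S2 := by
    have : IsCompact S2 := by
      rw [hS2, segment_eq_image]
      exact isCompact_Icc.image (by fun_prop)
    exact this.measurableSet
  refine le_trans ?_ (measure_mono hsub)
  rw [measure_union hdisj hmeas, hS1, hS2, hausdorffMeasure_segment, hausdorffMeasure_segment,
    edist_dist, edist_dist, ← ENNReal.ofReal_add dist_nonneg dist_nonneg]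
  apply ENNReal.ofReal_le_ofReal
  rw [EuclideanSpace.dist_eq, EuclideanSpace.dist_eq, Fin.sum_univ_two, Fin.sum_univ_two]
  simp only [Matrix.cons_val_zero, Matrix.cons_val_one, Real.dist_eq, sq_abs, sub_self]
  have e1 : ((0.1:ℝ) - 1.3) ^ 2 + 0 ^ 2 = 1.2 ^ 2 := by norm_num
  have e2 : ((0:ℝ) - 1) ^ 2 + (0 - 1) ^ 2 = 2 := by norm_num
  rw [e1, e2, Real.sqrt_sq (by norm_num)]
  linarith

theorem overlap_T0_K0 : Overlap T0 K0 := by
  have hlo := sqrt_lo
  have hhi := sqrt_hi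
  constructor
  · refine ⟨!₂[(1/2 : ℝ), 1/4], ?_, ?_⟩
    · have hopen : IsOpen ({p : E2 | 0 < p 1} ∩ ({p : E2 | p 1 < p 0} ∩
          {p : E2 | p 0 + p 1 < 2})) :=
        IsOpen.inter (isOpen_lt (by fun_prop) (by fun_prop))
          (IsOpen.inter (isOpen_lt (by fun_prop) (by fun_prop))
            (isOpen_lt (by fun_prop) (by fun_prop)))
      refine interior_maximal ?_ hopen ⟨?_, ?_, ?_⟩
      · rintro q ⟨q1, q2, q3⟩
        exact ⟨le_of_lt q1, le_of_lt q2, le_of_lt q3⟩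
      · simp
      · simp; norm_num
      · simp; norm_num
    · have hopen : IsOpen ({p : E2 | 0 < p 1 + 1 / 100} ∩
          ({p : E2 | p 1 + 1 / 100 < p 0 + 1 / 50} ∩ {p : E2 | p 0 + 1 / 50 < Real.sqrt 2})) :=
        IsOpen.inter (isOpen_lt (by fun_prop) (by fun_prop))
          (IsOpen.inter (isOpen_lt (by fun_prop) (by fun_prop))
            (isOpen_lt (by fun_prop) (by fun_prop)))
      refine interior_maximal ?_ hopen ⟨?_, ?_, ?_⟩
      · rintro q ⟨q1, q2, q3⟩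
        exact ⟨le_of_lt q1, le_of_lt q2, le_of_lt q3⟩
      · simp; norm_num
      · simp; norm_num
      · simp; linarith
  · intro h
    have h2 : (!₂[(2:ℝ), 0] : E2) ∈ T0 := by simp [T0]
    rw [h] at h2
    have := h2.2.2
    simp at this
    linarith

theorem angle_a : ∠ (!₂[(2:ℝ), 0] : E2) !₂[(0:ℝ), 0] !₂[(1:ℝ), 1] = Real.pi / 4 := by
  unfold EuclideanGeometry.angle InnerProductGeometry.angle
  have h2 : (2:ℝ) / (2 * Real.sqrt 2) = Real.sqrt 2 / 2 := by
    have h : Real.sqrt 2 * Real.sqrt 2 = 2 := Real.mul_self_sqrt (by norm_num)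
    field_simp
    nlinarith
  have e : inner ℝ ((!₂[(2:ℝ), 0] : E2) -ᵥ !₂[(0:ℝ), 0]) (!₂[(1:ℝ), 1] -ᵥ !₂[(0:ℝ), 0])
      / (‖((!₂[(2:ℝ), 0] : E2) -ᵥ !₂[(0:ℝ), 0])‖ * ‖((!₂[(1:ℝ), 1] : E2) -ᵥ !₂[(0:ℝ), 0])‖)
      = Real.sqrt 2 / 2 := by
    rw [EuclideanSpace.norm_eq, EuclideanSpace.norm_eq, Fin.sum_univ_two, Fin.sum_univ_two,
      PiLp.inner_apply, Fin.sum_univ_two]
    simp
    norm_num
    exact h2
  rw [e, ← Real.cos_pi_div_four, Real.arccos_cos (by positivity) (by linarith [Real.pi_pos])]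

theorem angle_b : ∠ (!₂[(0:ℝ), 0] : E2) !₂[(2:ℝ), 0] !₂[(1:ℝ), 1] = Real.pi / 4 := by
  unfold EuclideanGeometry.angle InnerProductGeometry.angle
  have h2 : (2:ℝ) / (2 * Real.sqrt 2) = Real.sqrt 2 / 2 := by
    have h : Real.sqrt 2 * Real.sqrt 2 = 2 := Real.mul_self_sqrt (by norm_num)
    field_simp
    nlinarith
  have e : inner ℝ ((!₂[(0:ℝ), 0] : E2) -ᵥ !₂[(2:ℝ), 0]) (!₂[(1:ℝ), 1] -ᵥ !₂[(2:ℝ), 0])
      / (‖((!₂[(0:ℝ), 0] : E2) -ᵥ !₂[(2:ℝ), 0])‖ * ‖((!₂[(1:ℝ), 1] : E2) -ᵥ !₂[(2:ℝ), 0])‖)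
      = Real.sqrt 2 / 2 := by
    rw [EuclideanSpace.norm_eq, EuclideanSpace.norm_eq, Fin.sum_univ_two, Fin.sum_univ_two,
      PiLp.inner_apply, Fin.sum_univ_two]
    simp
    norm_num
    exact h2
  rw [e, ← Real.cos_pi_div_four, Real.arccos_cos (by positivity) (by linarith [Real.pi_pos])]

theorem angle_c : ∠ (!₂[(0:ℝ), 0] : E2) !₂[(1:ℝ), 1] !₂[(2:ℝ), 0] = Real.pi / 2 := by
  unfold EuclideanGeometry.angle InnerProductGeometry.angle
  have e : inner ℝ ((!₂[(0:ℝ), 0] : E2) -ᵥ !₂[(1:ℝ), 1]) (!₂[(2:ℝ), 0] -ᵥ !₂[(1:ℝ), 1]) = 0 := by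
    rw [PiLp.inner_apply, Fin.sum_univ_two]
    simp
    norm_num
  rw [e, zero_div, Real.arccos_zero]

theorem smallest : smallestAngle !₂[(0:ℝ), 0] !₂[(2:ℝ), 0] !₂[(1:ℝ), 1] = Real.pi / 4 := by
  unfold smallestAngle
  rw [angle_a, angle_b, angle_c, min_eq_left (by linarith [Real.pi_pos] : Real.pi / 4 ≤ Real.pi / 2),
    min_self]

theorem affInd : AffineIndependent ℝ ![(!₂[(0:ℝ), 0] : E2), !₂[(2:ℝ), 0], !₂[(1:ℝ), 1]] := by
  rw [affineIndependent_iff_linearIndependent_vsub ℝ _ (0 : Fin 3)]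
  rw [← linearIndependent_equiv (finSuccAboveEquiv (0 : Fin 3))]
  rw [Fintype.linearIndependent_iff]
  intro c hc
  rw [Fin.sum_univ_two] at hc
  have h0 := congrArg (fun v : E2 => v 0) hc
  have h1 := congrArg (fun v : E2 => v 1) hc
  simp [finSuccAboveEquiv_apply] at h0 h1
  intro i
  fin_cases i
  · show c 0 = 0
    simp [h1] at h0
    exact h0
  · exact h1

theorem refl_image : (IsometryEquiv.refl E2) '' T0 = T0 := by
  ext p
  constructor
  · rintro ⟨x, hx, rfl⟩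
    exact hx
  · intro h
    exact ⟨p, h, rfl⟩

/-- **Negative answer to Q1 of MP_071e18_gt.** There is a triangle `T` (the right isosceles one)
with smallest angle `θ` such that `M(T) > csc(θ/2)`. -/
theorem result : ∃ a b c : E2, AffineIndependent ℝ ![a, b, c] ∧
    ENNReal.ofReal (1 / Real.sin (smallestAngle a b c / 2)) < M (convexHull ℝ {a, b, c}) := by
  refine ⟨!₂[(0:ℝ), 0], !₂[(2:ℝ), 0], !₂[(1:ℝ), 1], affInd, ?_⟩
  rw [hull_eq, smallest]
  have hM : ratio T0 K0 ≤ M T0 := by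
    have hov : Overlap ((IsometryEquiv.refl E2) '' T0) (G '' T0) := by
      rw [image_eq]
      rw [refl_image]
      exact overlap_T0_K0
    have h1 : ratio ((IsometryEquiv.refl E2) '' T0) (G '' T0) ≤ M T0 := by
      unfold M
      exact le_iSup_of_le (IsometryEquiv.refl E2) (le_iSup_of_le G (le_iSup_of_le hov le_rfl))
    rw [image_eq] at h1
    rw [refl_image] at h1
    exact h1
  refine lt_of_lt_of_le ?_ hM
  have hr : ENNReal.ofReal 2.6 / ENNReal.ofReal 0.62 ≤ ratio T0 K0 :=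
    ENNReal.div_le_div num_ge denom_le
  refine lt_of_lt_of_le ?_ hr
  rw [← ENNReal.ofReal_div_of_pos (by norm_num)]
  rw [ENNReal.ofReal_lt_ofReal_iff (by norm_num)]
  have e : Real.pi / 4 / 2 = Real.pi / 8 := by ring
  rw [e, Real.sin_pi_div_eight]
  have hhi := sqrt_hi
  have h1 : (0.7 : ℝ) < Real.sqrt (2 - Real.sqrt 2) := by
    rw [Real.lt_sqrt (by norm_num)]; nlinarith
  rw [div_lt_div_iff₀ (by positivity) (by norm_num)]
  nlinarith

end Pool.Agent.Results.MP_071e18_gt.RightIsosceles
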